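import Pool.Agent.DBR.Main

namespace Pool.Agent.Results.MP_910507_an.Lambda3Exact

open Pool.Agent.PSB

/-- The exact value of `Λ_3(M)` for every `M > 1`. -/
theorem result (M : ℝ) (hM : 1 < M) :
    (M + 4 * Real.log M ≤ 4 →
      Lam 3 M = 2 - 1 / M ^ 2 + Real.log M / (4 * (1 - Real.log M))) ∧
    (4 ≤ M + 4 * Real.log M → M ≤ 4 → ∃ s : ℝ, Real.exp (-1) ≤ s ∧ 1 / M ≤ s ∧ s ≤ 1 ∧
      s * Real.log s = 1 / 4 - 1 / M ∧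
      Lam 3 M = 7 / 4 + 1 / M ^ 2 + (1 - 4 / M) * s + 2 * s ^ 2) ∧
    (4 ≤ M → Lam 3 M = 6 - 10 / M + 5 / M ^ 2) :=
  Pool.Agent.DBR.t_la3 M hM

end Pool.Agent.Results.MP_910507_an.Lambda3Exact
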