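import Pool.Agent.PSB.Main
import Pool.Agent.PSB.Final

namespace Pool.Agent.Results.MP_910507_an.NearOne

open Pool.Agent.PSB

/-- Two-sided bounds for `Λ_n(M)`, which agree to first order as `M → 1`. -/
theorem result (n : ℕ) (hn : 1 ≤ n) (M : ℝ) (hM : 1 < M) :
    (∃ φ : ℝ, Lam n M ≤ ‖1 - 2 * ((M : ℂ) - 1) * ∑ k ∈ Finset.Ico 1 n, ee (k * φ)‖) ∧
    (∀ φ : ℝ, ‖1 - ((M : ℂ) ^ 2 - 1) * ∑ k ∈ Finset.Ico 1 n,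
      (((1 - Real.sqrt (1 - 1 / M ^ 2) : ℝ) : ℂ)) ^ k * ee (k * φ)‖ ≤ Lam n M) ∧
    (M ≤ 2 → |Lam n M - 1 - slope' n * (M - 1)| ≤ 3 * n ^ 2 * (M - 1) ^ (3 / 2 : ℝ)) :=
  ⟨lam_le gub hM hn, glb M hM n hn, fun h => slo n M hn hM h⟩

end Pool.Agent.Results.MP_910507_an.NearOne
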