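import Pool.Agent.DBR.Neg

namespace Pool.Agent.Results.MP_910507_an.OptimalRange

open Pool.Agent.PSB Pool.Agent.DBR

/-- The exact value of `Λ_n(M)` for every `n ≥ 2` and every `M ≥ 5n²/2`; the same expression is
too small for every `n ≥ 4` and `M = (2n-1)²/28`, so the order `n²` of the range is optimal. -/
theorem result :
    (∀ n : ℕ, 2 ≤ n → ∀ M : ℝ, 5 / 2 * (n : ℝ) ^ 2 ≤ M → Lam n M = AP n M) ∧
    (∀ n : ℕ, 4 ≤ n →
      AP n ((2 * (n : ℝ) - 1) ^ 2 / 28) < Lam n ((2 * (n : ℝ) - 1) ^ 2 / 28)) :=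
  ⟨fun n hn M hM => lam_eq n hn M hM, fun n hn => Neg.fails n hn⟩

end Pool.Agent.Results.MP_910507_an.OptimalRange
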