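import Pool.Agent.PSB.Main

namespace Pool.Agent.Results.MP_910507_an.Uniform

open Pool.Agent.PSB

/-- Bounds for `Λ_n(M)` of the same order `M`, uniform in `n ≥ C √M`. -/
theorem result (n : ℕ) (M : ℝ) (hM : 1 < M) :
    M * (1 - (1 - 1 / Real.sqrt M) ^ n * (1 + n / Real.sqrt M)) ≤ Lam n M ∧
    Lam n M ≤ M + 0.65 * Real.sqrt (M ^ 2 - 1) :=
  ⟨klb M hM n, uni M hM n⟩

end Pool.Agent.Results.MP_910507_an.Uniform
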